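import Mathlib
import Pool.Agent.Lib.MP_d87a8f_pr.P.StarDefs

/-!
The conjectured cutoff time and the chord bound.
-/

namespace Pool.Agent.Lib.MP_d87a8f_pr

/-- The conjectured time: the maximum of the entropic time of `(k, |G^ab|)` and of
`log |G| / log k`. -/
noncomputable def tStar (G : Type) [Group G] [Fintype G] (k : ℕ) : ℝ :=
  max (entTime k (Nat.card (Abelianization G))) (Real.log (Fintype.card G) / Real.log k)

/-- The maximum of `log |G^ab|` and `L * log (log L) / log L` for `L = log |G|`. -/
noncomputable def baseLog (G : Type) [Group G] [Fintype G] : ℝ :=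
  max (Real.log (Nat.card (Abelianization G)))
    (Real.log (Fintype.card G) * Real.log (Real.log (Real.log (Fintype.card G))) /
      Real.log (Real.log (Fintype.card G)))

/-- The affine function of `log d` with the value `baseLog G` at `d = 1` and the value
`L = log |G|` at `d = L`. -/
noncomputable def chord (G : Type) [Group G] [Fintype G] (d : ℕ) : ℝ :=
  baseLog G + (Real.log (Fintype.card G) - baseLog G) * Real.log d /
    Real.log (Real.log (Fintype.card G))

end Pool.Agent.Lib.MP_d87a8f_pr
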