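import Mathlib
import Pool.Agent.Lib.MP_d87a8f_pr.Q.Ent

/-!
The two numerical steps of the elimination of the number of generators.
-/

namespace Pool.Agent.Lib.MP_d87a8f_pr.C

open Pool.Agent.Lib.MP_d87a8f_pr.Q

/-- the value of `x * log (k / x)` at `x = L / log k` -/
theorem diam_val {L k : ℝ} (hL : 3 ≤ L) (hk : L ≤ k) :
    L * Real.log (Real.log L) / Real.log L ≤
      L / Real.log k * Real.log (k / (L / Real.log k)) := by
  have v1 : 1 ≤ Real.log L := by
    rw [Real.le_log_iff_exp_le (by linarith)]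
    linarith [Real.exp_one_lt_d9]
  have uv : Real.log L ≤ Real.log k := Real.log_le_log (by linarith) hk
  have l1 : Real.log (Real.log L) ≤ Real.log (Real.log k) := Real.log_le_log (by linarith) uv
  have l2 : Real.log (Real.log L) ≤ Real.log L := by
    linarith [Real.log_le_sub_one_of_pos (show 0 < Real.log L by linarith)]
  rw [Real.log_div (by linarith) (div_pos (by linarith) (by linarith)).ne',
    Real.log_div (by linarith) (by linarith)]
  generalize Real.log (Real.log k) = p at l1 ⊢
  generalize Real.log (Real.log L) = w at l1 l2 ⊢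
  generalize Real.log k = u at uv ⊢
  generalize Real.log L = v at v1 uv l2 ⊢
  have u0 : 0 < u := by linarith
  have v0 : 0 < v := by linarith
  have e1 : L * w / v = L * (1 - (v - w) / v) := by field_simp; ring
  have e2 : L / u * (u - (v - p)) = L * (1 - (v - p) / u) := by field_simp
  have h1 : (v - p) / u ≤ (v - w) / u := div_le_div_of_nonneg_right (by linarith) u0.le
  have h2 : (v - w) / u ≤ (v - w) / v := div_le_div_of_nonneg_left (by linarith) v0 uv
  rw [e1, e2]
  exact mul_le_mul_of_nonneg_left (by linarith) (by linarith)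

/-- under the chord the entropic time of the subgroup is not larger -/
theorem up (ε : ℝ) (hε : 0 < ε) (hε1 : ε < 1) : ∃ B : ℝ, 1 ≤ B ∧
    ∀ (k d : ℕ) (L a0 t0 h s : ℝ), B ≤ L → B * L ≤ k → B ≤ Real.log k → 1 ≤ d → a0 ≤ L →
      0 ≤ t0 → (k : ℝ) * poissonEntropy (t0 / k) = a0 → h ≤ L →
      h ≤ (1 + ε) * (max a0 (L * Real.log (Real.log L) / Real.log L) +
        (L - max a0 (L * Real.log (Real.log L) / Real.log L)) * Real.log d / Real.log L) →
      0 ≤ s → ((k * d : ℕ) : ℝ) * poissonEntropy (s / (k * d : ℕ)) = h →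
      s ≤ (1 + ε) ^ 3 * max t0 (L / Real.log k) := by
  obtain ⟨K, hK⟩ := room ε 0 hε hε1 le_rfl
  have K0 : (0 : ℝ) ≤ K := Nat.cast_nonneg _
  have e4 := Real.exp_pos 4
  refine ⟨K + Real.exp 4 + 8, by linarith, ?_⟩
  intro k d L a0 t0 h s b1 b2 b3 hd ha ht0 he hh hc hs hes
  have L8 : 8 ≤ L := by linarith
  have q1 := mul_nonneg K0 (show 0 ≤ L by linarith)
  have q2 := mul_pos e4 (show 0 < L by linarith)
  have k8 : 8 * L ≤ k := by nlinarith
  have kK : K * L ≤ k := by nlinarith
  have k4 : Real.exp 4 * L ≤ k := by nlinarith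
  have k0 : (0 : ℝ) < k := by linarith
  have kn : 0 < k := by exact_mod_cast k0
  have d1 : (1 : ℝ) ≤ d := by exact_mod_cast hd
  have ld : 0 ≤ Real.log d := Real.log_nonneg d1
  have u8 : 8 ≤ Real.log k := by linarith
  have v1 : 1 ≤ Real.log L := by
    rw [Real.le_log_iff_exp_le (by linarith)]
    linarith [Real.exp_one_lt_d9]
  have g4 : ∀ l : ℝ, 0 < l → l ≤ L → 4 ≤ Real.log (k / l) := fun l l0 l1 => by
    rw [Real.le_log_iff_exp_le (by positivity), le_div_iff₀ l0]
    exact (mul_le_mul_of_nonneg_left l1 e4.le).trans k4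
  have t1 : t0 ≤ L / 2 := by
    refine time_le_of k a0 t0 _ kn (by linarith) ht0 he (by linarith) ?_
    have := mul_le_mul_of_nonneg_left (g4 (L / 2) (by linarith) (by linarith))
      (show 0 ≤ L / 2 by linarith)
    linarith
  have x0 : 0 < L / Real.log k := by positivity
  have x1 : L / Real.log k ≤ L / 2 := div_le_div_of_nonneg_left (by linarith) (by norm_num)
    (by linarith)
  have dv := diam_val (L := L) (k := k) (by linarith) (by linarith)
  have m1 : t0 ≤ max t0 (L / Real.log k) := le_max_left _ _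
  have m2 : L / Real.log k ≤ max t0 (L / Real.log k) := le_max_right _ _
  have m3 : max t0 (L / Real.log k) ≤ L / 2 := max_le t1 x1
  generalize max t0 (L / Real.log k) = t at m1 m2 m3 ⊢
  have tp : 0 < t := by linarith
  have et : ε * t ≤ t := mul_le_of_le_one_left tp.le hε1.le
  have et0 : 0 < ε * t := mul_pos hε tp
  obtain ⟨l, hl⟩ : ∃ l, l = (1 + ε) * t := ⟨_, rfl⟩
  have l0 : 0 < l := by rw [hl]; positivity
  have lt : t ≤ l := by rw [hl]; linarith
  have lL : l ≤ L := by rw [hl]; linarith
  have r1 := hK k a0 t0 l l0 ((mul_le_mul_of_nonneg_left lL K0).trans kK) ht0 he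
    (by rw [hl]; exact mul_le_mul_of_nonneg_left m1 (by linarith))
  have r2 := dv.trans (xlog_mono (k := k) x0 (m2.trans lt) (by linarith))
  have r3 : max a0 (L * Real.log (Real.log L) / Real.log L) ≤ l * Real.log (k / l) :=
    max_le (by linarith) r2
  have r4 : L ≤ l * Real.log (k / l) + l * Real.log L := by
    have z1 : L ≤ l * Real.log k := by
      have := m2.trans lt
      rwa [div_le_iff₀ (by linarith)] at this
    have z2 := mul_le_mul_of_nonneg_left (Real.log_le_log l0 lL) l0.le
    rw [Real.log_div k0.ne' l0.ne']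
    linarith
  have X4 := g4 l l0 lL
  have eX : Real.log (((k * d : ℕ) : ℝ) / ((1 + ε) ^ 2 * l)) =
      Real.log (k / l) + Real.log d - 2 * Real.log (1 + ε) := by
    push_cast
    rw [Real.log_div (by positivity) (by positivity), Real.log_mul k0.ne' (by positivity),
      Real.log_mul (by positivity) l0.ne', Real.log_pow, Real.log_div k0.ne' l0.ne']
    push_cast
    ring
  have le1 : Real.log (1 + ε) ≤ ε := by
    linarith [Real.log_le_sub_one_of_pos (show 0 < 1 + ε by linarith)]
  generalize max a0 (L * Real.log (Real.log L) / Real.log L) = a at hc r3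
  have r5 : h ≤ (1 + ε) * (l * (Real.log (k / l) + Real.log d)) := by
    have P0 : 0 ≤ l * (Real.log (k / l) + Real.log d) := by positivity
    rcases le_total (Real.log L) (Real.log d) with c | c
    · have := mul_le_mul_of_nonneg_left c l0.le
      have := mul_nonneg hε.le P0
      linarith
    · refine hc.trans (mul_le_mul_of_nonneg_left ?_ (by linarith))
      obtain ⟨δ, hδ⟩ : ∃ δ, δ = Real.log d / Real.log L := ⟨_, rfl⟩
      have δ0 : 0 ≤ δ := by rw [hδ]; positivity
      have δ1 : δ ≤ 1 := by rw [hδ, div_le_one (by linarith)]; exact c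
      have e1 : Real.log d = δ * Real.log L := by rw [hδ]; field_simp
      have e2 : (L - a) * Real.log d / Real.log L = (L - a) * δ := by rw [hδ]; ring
      rw [e2, e1]
      have z1 := mul_le_mul_of_nonneg_left r3 (show 0 ≤ 1 - δ by linarith)
      have z2 := mul_le_mul_of_nonneg_left r4 δ0
      linarith
  have kd : (k : ℝ) ≤ (k * d : ℕ) := by exact_mod_cast Nat.le_mul_of_pos_right _ hd
  have fin := time_le_of (k * d) h s ((1 + ε) ^ 2 * l) (Nat.mul_pos kn hd) (by linarith) hs hes
    (by positivity) (by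
      rw [eX]
      refine r5.trans ?_
      have X5 : 4 ≤ Real.log (k / l) + Real.log d := by linarith
      generalize Real.log (k / l) + Real.log d = X at X5 ⊢
      have z1 : X ≤ (1 + ε) * (X - 2 * Real.log (1 + ε)) := by
        have y1 := mul_le_mul_of_nonneg_left le1 (show 0 ≤ 2 * (1 + ε) by linarith)
        have y2 := mul_le_mul_of_nonneg_left X5 hε.le
        have y3 : ε * ε ≤ ε := mul_le_of_le_one_left hε.le hε1.le
        linarith
      have z2 := mul_le_mul_of_nonneg_left z1 (show 0 ≤ (1 + ε) * l by positivity)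
      linarith)
  rw [hl] at fin
  linarith

/-- the worst number of generators -/
theorem down (ε : ℝ) (hε : 0 < ε) (hε1 : ε ≤ 1) : ∃ W : ℝ, ∀ L a : ℝ, 3 ≤ L →
    W ≤ Real.log (Real.log L) → L * Real.log (Real.log L) / Real.log L ≤ a → (1 + ε) * a ≤ L →
    ∃ (k : ℕ) (t : ℝ), 0 < t ∧ t ≤ L ∧
      Real.log L + ε / 8 * Real.log (Real.log L) - 4 ≤ Real.log k ∧
      Real.log k ≤ 1 + 4 / ε * Real.log L ∧ L ≤ t * Real.log k ∧ a ≤ t * Real.log (k / t) ∧
      ∀ y : ℝ, 0 ≤ y →
        t * Real.log (k / t) + t * y ≤ (1 + ε / 4) * (a + (L - a) * y / Real.log L) := by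
  refine ⟨16 * (1 + 4 / ε) / ε + 16 / ε + 4, fun L a hL hW ha1 ha2 => ?_⟩
  have L0 : 0 < L := by linarith
  have v1 : 1 ≤ Real.log L := by
    rw [Real.le_log_iff_exp_le (by linarith)]
    linarith [Real.exp_one_lt_d9]
  obtain ⟨v, hv⟩ : ∃ v, v = Real.log L := ⟨_, rfl⟩
  rw [← hv] at hW ha1 v1 ⊢
  obtain ⟨w, hw⟩ : ∃ w, w = Real.log v := ⟨_, rfl⟩
  rw [← hw] at hW ha1 ⊢
  obtain ⟨C, hC⟩ : ∃ C, C = 4 / ε := ⟨_, rfl⟩
  rw [← hC] at hW ⊢
  have C0 : 0 < C := by rw [hC]; positivity
  have eC : ε * C = 4 := by rw [hC]; field_simp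
  have p1 : 0 < 16 * (1 + C) / ε := by positivity
  have p2 : 0 < 16 / ε := by positivity
  have w4 : 4 ≤ w := by linarith
  have w5 : 16 * (1 + C) ≤ ε * w := by
    have : 16 * (1 + C) / ε ≤ w := by linarith
    rw [div_le_iff₀ hε] at this
    linarith
  have v0 : 0 < v := by linarith
  have wv : w * w ≤ 2 * v := by
    have := Real.quadratic_le_exp_of_nonneg (show 0 ≤ w by linarith)
    rw [hw, Real.exp_log v0, ← hw] at this
    nlinarith
  have wv2 : 2 * w ≤ v := by nlinarith
  have wv3 : 8 * w ≤ ε * v := by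
    have y1 := mul_le_mul_of_nonneg_left wv hε.le
    have y2 := mul_le_mul_of_nonneg_right (show 16 ≤ ε * w by linarith) (show 0 ≤ w by linarith)
    linarith
  have aL : L * w ≤ a * v := by rwa [div_le_iff₀ v0] at ha1
  have a0 : 0 < a := lt_of_lt_of_le (by positivity) ha1
  obtain ⟨b, hb⟩ : ∃ b, b = (1 + ε / 8) * a := ⟨_, rfl⟩
  have ea := mul_pos hε a0
  have ea1 : ε * a ≤ a := mul_le_of_le_one_left a0.le hε1
  have bL : ε / 4 * L ≤ L - b := by
    have y1 : ε * L ≤ L := mul_le_of_le_one_left L0.le hε1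
    have y2 := mul_le_mul_of_nonneg_left ha2 (show 0 ≤ 1 - ε / 4 by linarith)
    have y3 : ε * (ε * a) ≤ ε * a := mul_le_of_le_one_left ea.le hε1
    rw [hb]
    linarith
  have eL := mul_pos hε L0
  have ab : a ≤ b := by rw [hb]; linarith
  have m0 : 0 < v - w := by linarith
  obtain ⟨t, ht⟩ : ∃ t, t = (L - b) / (v - w) := ⟨_, rfl⟩
  have t0 : 0 < t := by rw [ht]; exact div_pos (by linarith) m0
  have tm : t * (v - w) = L - b := by rw [ht]; field_simp
  have tv : t * v ≤ 2 * L := by
    have := mul_le_mul_of_nonneg_left wv2 t0.le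
    linarith
  have tL : t ≤ L := by
    have := mul_le_mul_of_nonneg_left (show 1 ≤ v - w by linarith) t0.le
    linarith
  have ta : (1 + C) * t ≤ ε / 8 * a := by
    refine le_of_mul_le_mul_right ?_ v0
    have y1 := mul_le_mul_of_nonneg_left tv (show 0 ≤ 1 + C by linarith)
    have y2 := mul_le_mul_of_nonneg_left aL hε.le
    have y3 := mul_le_mul_of_nonneg_left w5 L0.le
    linarith
  have Ct := mul_pos C0 t0
  have lt1 : Real.log t ≤ v - w + 1 := by
    have y1 : t ≤ L * 2 / v := by rw [le_div_iff₀ v0]; linarith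
    have y2 := Real.log_le_log t0 y1
    rw [Real.log_div (by positivity) v0.ne', Real.log_mul L0.ne' (by norm_num), ← hv, ← hw] at y2
    linarith [Real.log_two_lt_d9]
  have lt2 : v - w - C ≤ Real.log t := by
    have y1 : L / C / v ≤ t := by
      rw [div_le_iff₀ v0, div_le_iff₀ C0]
      have y3 : L - b ≤ t * v := by
        have := mul_nonneg t0.le (show 0 ≤ w by linarith)
        linarith
      have y4 := mul_le_mul_of_nonneg_right (bL.trans y3) C0.le
      have y5 : ε / 4 * L * C = L := by
        calc ε / 4 * L * C = (ε * C) * L / 4 := by ring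
          _ = L := by rw [eC]; ring
      linarith
    have y2 := Real.log_le_log (by positivity) y1
    rw [Real.log_div (by positivity) v0.ne', Real.log_div L0.ne' C0.ne', ← hv, ← hw] at y2
    linarith [Real.log_le_sub_one_of_pos C0]
  have E1 : 1 ≤ Real.exp (L / t) := Real.one_le_exp (by positivity)
  have k1 : Real.exp (L / t) ≤ (⌈Real.exp (L / t)⌉₊ : ℝ) := Nat.le_ceil _
  have k2 : (⌈Real.exp (L / t)⌉₊ : ℝ) ≤ Real.exp (L / t) * 2 := by
    have := (Nat.ceil_lt_add_one (show 0 ≤ Real.exp (L / t) by linarith)).le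
    linarith
  generalize ⌈Real.exp (L / t)⌉₊ = k at k1 k2
  have k0 : (0 : ℝ) < k := by linarith
  have u1 : L / t ≤ Real.log k := by
    rw [Real.le_log_iff_exp_le k0]; exact k1
  have u2 : Real.log k ≤ L / t + 1 := by
    have := Real.log_le_log k0 k2
    rw [Real.log_mul (by linarith) (by norm_num), Real.log_exp] at this
    linarith [Real.log_two_lt_d9]
  have tq : t * (L / t) = L := by field_simp
  have u3 : L ≤ t * Real.log k := by
    have := mul_le_mul_of_nonneg_left u1 t0.le
    linarith
  have u4 : t * Real.log k ≤ L + t := by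
    have := mul_le_mul_of_nonneg_left u2 t0.le
    linarith
  have eL2 : Real.log (k / t) = Real.log k - Real.log t := Real.log_div k0.ne' t0.ne'
  refine ⟨k, t, t0, tL, ?_, ?_, u3, ?_, fun y hy => ?_⟩
  · refine le_trans ?_ u1
    obtain ⟨x, hx⟩ : ∃ x, x = b / L := ⟨_, rfl⟩
    have xb : x * L = b := by rw [hx]; field_simp
    have x1 : (v - w) * (1 + x) ≤ L / t := by
      rw [le_div_iff₀ t0]
      have y1 : (v - w) * (1 + x) * t = (L - b) * (1 + x) := by rw [← tm]; ring
      have y2 : 0 ≤ x * x * L := mul_nonneg (mul_self_nonneg x) L0.le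
      rw [y1, ← xb]
      linarith
    have x2 : (1 + ε / 8) * w ≤ x * v := by
      refine le_of_mul_le_mul_right ?_ L0
      have y1 := mul_le_mul_of_nonneg_left aL (show 0 ≤ 1 + ε / 8 by linarith)
      have y2 : x * v * L = (1 + ε / 8) * (a * v) := by
        calc x * v * L = (x * L) * v := by ring
          _ = _ := by rw [xb, hb]; ring
      linarith
    have x3 : (1 + ε / 8) * w - 4 ≤ (v - w) * x := by
      refine le_of_mul_le_mul_right ?_ v0
      have y1 := mul_le_mul_of_nonneg_left x2 m0.le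
      have y2 := mul_le_mul_of_nonneg_left wv (show 0 ≤ 1 + ε / 8 by linarith)
      have y3 : ε * v ≤ v := mul_le_of_le_one_left v0.le hε1
      linarith
    linarith
  · have y1 : L / t ≤ C * v := by
      rw [div_le_iff₀ t0]
      have y3 : L - b ≤ t * v := by
        have := mul_nonneg t0.le (show 0 ≤ w by linarith)
        linarith
      have y4 := mul_le_mul_of_nonneg_right (bL.trans y3) C0.le
      have y5 : ε / 4 * L * C = L := by
        calc ε / 4 * L * C = (ε * C) * L / 4 := by ring
          _ = L := by rw [eC]; ring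
      linarith
    linarith
  · have y1 := mul_le_mul_of_nonneg_left lt1 t0.le
    rw [eL2]
    linarith
  · have y1 := mul_le_mul_of_nonneg_left lt2 t0.le
    have y2 : t * y ≤ (1 + ε / 4) * ((L - a) * y / v) := by
      have z1 : t ≤ (1 + ε / 4) * ((L - a) / v) := by
        rw [← mul_div_assoc, le_div_iff₀ v0]
        have z2 : v ≤ (1 + ε / 4) * (v - w) := by
          have : ε * w ≤ w := mul_le_of_le_one_left (by linarith) hε1
          linarith
        have z3 := mul_le_mul_of_nonneg_left z2 t0.le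
        have z4 : t * ((1 + ε / 4) * (v - w)) = (1 + ε / 4) * (L - b) := by rw [← tm]; ring
        have z5 := mul_le_mul_of_nonneg_left (show L - b ≤ L - a by linarith)
          (show 0 ≤ 1 + ε / 4 by linarith)
        linarith
      have z6 := mul_le_mul_of_nonneg_right z1 hy
      have z7 : (1 + ε / 4) * ((L - a) / v) * y = (1 + ε / 4) * ((L - a) * y / v) := by ring
      linarith
    rw [eL2]
    linarith

end Pool.Agent.Lib.MP_d87a8f_pr.C
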