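import Mathlib
import Pool.Agent.Lib.MP_d87a8f_pr.C.Defs
import Pool.Agent.Lib.MP_d87a8f_pr.C.Num
import Pool.Agent.Lib.MP_d87a8f_pr.P.He
import Pool.Agent.Lib.MP_d87a8f_pr.K.StepE

/-!
The sequences of groups for which the conjectured time is the cutoff time for every admissible
number of generators.
-/

namespace Pool.Agent.Lib.MP_d87a8f_pr.C

open Filter Topology Pool.Agent.Lib.MP_d87a8f_pr.Q Pool.Agent.Lib.MP_d87a8f_pr.P

theorem card_ab_top (G : Type) [Group G] :
    Nat.card (Abelianization (⊤ : Subgroup G)) = Nat.card (Abelianization G) :=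
  Nat.card_congr (Subgroup.topEquiv (G := G)).abelianizationCongr.toEquiv

theorem tStar_le_star (G : Type) [Group G] [Fintype G] (k : ℕ) : tStar G k ≤ starTime G k := by
  refine max_le ?_ (le_max_left _ _)
  have := ent_le_star k (⊤ : Subgroup G)
  rwa [Subgroup.index_top, mul_one, card_ab_top] at this

theorem tStar_nonneg (G : Type) [Group G] [Fintype G] (k : ℕ) : 0 ≤ tStar G k :=
  le_trans (div_nonneg (Real.log_natCast_nonneg _) (Real.log_natCast_nonneg _)) (le_max_right _ _)

theorem log_ab_top (G : Type) [Group G] [Fintype G] :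
    Real.log (Nat.card (Abelianization G)) ≤ Real.log (Fintype.card G) := by
  have := log_ab_sub (⊤ : Subgroup G)
  rwa [card_ab_top] at this

variable (G : ℕ → Type) [∀ n, Group (G n)] [∀ n, Fintype (G n)] [∀ n, DecidableEq (G n)]

theorem all_cutoff (k : ℕ → ℕ)
    (h1 : Tendsto (fun n => (k n : ℝ) / Real.log (Fintype.card (G n))) atTop atTop)
    (h2 : Tendsto (fun n => Real.log (k n) / Real.log (Fintype.card (G n))) atTop (𝓝 0))
    (τ : ℕ → ℝ) (hτ : ∀ n, 0 ≤ τ n) :
    CutoffAt G k τ ↔ Asymptotics.IsEquivalent atTop τ (fun n => starTime (G n) (k n)) :=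
  cutoff_of_stepE G k (c := 100) (r := 3) (fun _ _ _ hb _ hD _ => K.stepE hb hD) h1 h2 τ hτ

theorem of_chord
    (h : ∀ ε : ℝ, 0 < ε → ∀ᶠ n in atTop, ∀ H : Subgroup (G n),
      Real.log (Nat.card (Abelianization H)) ≤ (1 + ε) * chord (G n) H.index)
    (k : ℕ → ℕ)
    (h1 : Tendsto (fun n => (k n : ℝ) / Real.log (Fintype.card (G n))) atTop atTop)
    (h2 : Tendsto (fun n => Real.log (k n) / Real.log (Fintype.card (G n))) atTop (𝓝 0)) :
    CutoffAt G k (fun n => tStar (G n) (k n)) := by
  rw [all_cutoff G k h1 h2 _ (fun n => tStar_nonneg _ _)]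
  refine (equiv_of_bounds _ _ ?_ (fun e he => ?_)).symm
  · filter_upwards [ev_regime G k h1 h2 1 le_rfl] with n ⟨b1, _, b3, _⟩
    exact lt_of_lt_of_le (div_pos (by linarith) (by linarith)) (le_max_right _ _)
  · obtain ⟨ε, ε0, ε1, εe⟩ : ∃ ε : ℝ, 0 < ε ∧ ε < 1 ∧ (1 + ε) ^ 3 ≤ 1 + e := by
      refine ⟨min (1 / 2) (e / 7), lt_min (by norm_num) (by linarith),
        lt_of_le_of_lt (min_le_left _ _) (by norm_num), ?_⟩
      have a1 := min_le_left (1 / 2 : ℝ) (e / 7)
      have a2 := min_le_right (1 / 2 : ℝ) (e / 7)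
      have a0 : 0 < min (1 / 2 : ℝ) (e / 7) := lt_min (by norm_num) (by linarith)
      generalize min (1 / 2 : ℝ) (e / 7) = x at a0 a1 a2
      have a3 : x * x ≤ x := by nlinarith
      have a4 : x * (x * x) ≤ x := by nlinarith
      nlinarith
    obtain ⟨B, B1, hB⟩ := up ε ε0 ε1
    filter_upwards [ev_regime G k h1 h2 (B + 8) (by linarith), h ε ε0] with n ⟨b1, b2, b3, _⟩ hc
    have t0 := tStar_nonneg (G n) (k n)
    have t1 := tStar_le_star (G n) (k n)
    have L0 : 0 ≤ Real.log (Fintype.card (G n)) := Real.log_natCast_nonneg _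
    have q := mul_nonneg (show 0 ≤ B by linarith) L0
    have k8 : 8 * Real.log (Fintype.card (G n)) ≤ k n := by linarith
    have kn : 0 < k n := by
      have : (0 : ℝ) < k n := by linarith
      exact_mod_cast this
    have la := log_ab_top (G n)
    obtain ⟨c1, c2⟩ := ent_mem (k n) (Nat.card (Abelianization (G n))) kn (by linarith)
    have t2 : starTime (G n) (k n) ≤ (1 + e) * tStar (G n) (k n) := by
      refine star_le ((le_max_right _ _).trans (le_mul_of_one_le_left t0 (by linarith)))
        fun H => ?_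
      obtain ⟨_, _, _, d3, d4⟩ := ent_mem_sub kn k8 H
      refine (hB (k n) H.index _ _ _ _ _ (by linarith) (by linarith) (by linarith)
        (Nat.pos_of_ne_zero H.index_ne_zero_of_finite) la c1 c2 (log_ab_sub H) (hc H) d3
        d4).trans (mul_le_mul_of_nonneg_right εe t0)
    exact ⟨t2, t1.trans (le_mul_of_one_le_left (t0.trans t1) (by linarith))⟩

theorem log_le_half {v : ℝ} (hv : 0 < v) : Real.log v ≤ v / 2 := by
  have h := Real.log_le_sub_one_of_pos (show 0 < v / 2 by linarith)
  rw [Real.log_div hv.ne' (by norm_num)] at h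
  linarith [Real.log_two_lt_d9]

theorem floor_le_half {L : ℝ} (hL : 3 ≤ L) :
    L * Real.log (Real.log L) / Real.log L ≤ L / 2 := by
  have v0 : 0 < Real.log L := Real.log_pos (by linarith)
  rw [div_le_iff₀ v0]
  have := mul_le_mul_of_nonneg_left (log_le_half v0) (show 0 ≤ L by linarith)
  linarith

theorem to_chord (hG : Tendsto (fun n => Fintype.card (G n)) atTop atTop)
    (h : ∀ k : ℕ → ℕ,
      Tendsto (fun n => (k n : ℝ) / Real.log (Fintype.card (G n))) atTop atTop →
      Tendsto (fun n => Real.log (k n) / Real.log (Fintype.card (G n))) atTop (𝓝 0) →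
      CutoffAt G k (fun n => tStar (G n) (k n)))
    (ε : ℝ) (hε : 0 < ε) (hε1 : ε ≤ 1) : ∀ᶠ n in atTop, ∀ H : Subgroup (G n),
      Real.log (Nat.card (Abelianization H)) ≤ (1 + ε) * chord (G n) H.index := by
  obtain ⟨W, hW⟩ := down ε hε hε1
  obtain ⟨L, hL⟩ : ∃ L : ℕ → ℝ, ∀ n, L n = Real.log (Fintype.card (G n)) := ⟨_, fun _ => rfl⟩
  have T1 : Tendsto L atTop atTop := by
    rw [show L = fun n => Real.log (Fintype.card (G n)) from funext hL]
    exact Real.tendsto_log_atTop.comp (tendsto_natCast_atTop_atTop.comp hG)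
  have T2 : Tendsto (fun n => Real.log (Real.log (L n))) atTop atTop :=
    Real.tendsto_log_atTop.comp (Real.tendsto_log_atTop.comp T1)
  have hex : ∀ n, ∃ (k : ℕ) (t : ℝ), 3 ≤ L n → W ≤ Real.log (Real.log (L n)) →
      0 < t ∧ t ≤ L n ∧
      Real.log (L n) + ε / 8 * Real.log (Real.log (L n)) - 4 ≤ Real.log k ∧
      Real.log k ≤ 1 + 4 / ε * Real.log (L n) ∧ L n ≤ t * Real.log k ∧
      min (baseLog (G n)) (L n / (1 + ε)) ≤ t * Real.log (k / t) ∧
      ∀ y : ℝ, 0 ≤ y → t * Real.log (k / t) + t * y ≤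
        (1 + ε / 4) * (min (baseLog (G n)) (L n / (1 + ε)) +
          (L n - min (baseLog (G n)) (L n / (1 + ε))) * y / Real.log (L n)) := fun n => by
    by_cases c : 3 ≤ L n ∧ W ≤ Real.log (Real.log (L n))
    · obtain ⟨k, t, q⟩ := hW (L n) (min (baseLog (G n)) (L n / (1 + ε))) c.1 c.2
        (le_min (by rw [hL]; exact le_max_right _ _) ((floor_le_half c.1).trans
          (div_le_div_of_nonneg_left (by linarith [c.1]) (by linarith) (by linarith))))
        (by
          have := min_le_right (baseLog (G n)) (L n / (1 + ε))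
          rw [le_div_iff₀ (by linarith)] at this
          linarith)
      exact ⟨k, t, fun _ _ => q⟩
    · exact ⟨0, 0, fun a b => absurd ⟨a, b⟩ c⟩
  choose k t hk using hex
  have ev := ((T1.eventually_ge_atTop 3).and (T2.eventually_ge_atTop W)).mono
    fun n c => And.intro c.1 (hk n c.1 c.2)
  have h1 : Tendsto (fun n => (k n : ℝ) / Real.log (Fintype.card (G n))) atTop atTop := by
    have T3 : Tendsto (fun n => Real.exp (ε / 8 * Real.log (Real.log (L n)) + -4)) atTop atTop :=
      Real.tendsto_exp_atTop.comp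
        (tendsto_atTop_add_const_right _ _ (T2.const_mul_atTop (by positivity)))
    refine tendsto_atTop_mono' _ ?_ T3
    filter_upwards [ev] with n ⟨c, t0, _, a3, _, a5, _⟩
    have k0 : (0 : ℝ) < k n := by
      rcases Nat.eq_zero_or_pos (k n) with z | z
      · rw [z] at a5
        simp only [Nat.cast_zero, Real.log_zero, mul_zero] at a5
        linarith
      · exact_mod_cast z
    rw [← hL, ← Real.le_log_iff_exp_le (div_pos k0 (by linarith)),
      Real.log_div k0.ne' (by linarith)]
    linarith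
  have h2 : Tendsto (fun n => Real.log (k n) / Real.log (Fintype.card (G n))) atTop (𝓝 0) := by
    have T4 : Tendsto (fun n => (L n)⁻¹ + 4 / ε * (Real.log (L n) / L n)) atTop (𝓝 0) := by
      have := T1.inv_tendsto_atTop.add
        ((Real.isLittleO_log_id_atTop.tendsto_div_nhds_zero.comp T1).const_mul (4 / ε))
      simpa using this
    refine squeeze_zero' (Eventually.of_forall fun n =>
      div_nonneg (Real.log_natCast_nonneg _) (Real.log_natCast_nonneg _)) ?_ T4
    filter_upwards [ev] with n ⟨c, _, _, _, a4, _⟩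
    rw [← hL]
    refine (div_le_div_of_nonneg_right a4 (by linarith)).trans (le_of_eq ?_)
    ring
  have hq := ((all_cutoff G k h1 h2 _ (fun n => tStar_nonneg _ _)).1 (h k h1 h2)).symm
  obtain ⟨K, hK⟩ := room (ε / 8) 0 (by linarith) (by linarith) le_rfl
  have K0 : (0 : ℝ) ≤ K := Nat.cast_nonneg _
  filter_upwards [ev, hq.isLittleO.bound (show 0 < ε / 8 by linarith),
    ev_regime G k h1 h2 (4 * K + 8) (by linarith)] with n ⟨c, t0, tL, _, _, a5, a6, a7⟩ q
    ⟨_, b2, b3, _⟩ H
  have la := log_ab_top (G n)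
  have lh := log_ab_sub H
  have i1 : 1 ≤ H.index := Nat.pos_of_ne_zero H.index_ne_zero_of_finite
  have d1 : (1 : ℝ) ≤ H.index := by exact_mod_cast i1
  have ld : 0 ≤ Real.log H.index := Real.log_nonneg d1
  have bL : baseLog (G n) ≤ L n := by
    refine max_le (by rw [hL]; exact la) ?_
    rw [← hL]
    linarith [floor_le_half c]
  have b0 : Real.log (Nat.card (Abelianization (G n))) ≤ baseLog (G n) := le_max_left _ _
  have a0 : 0 ≤ Real.log (Nat.card (Abelianization (G n))) := Real.log_natCast_nonneg _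
  have v0 : 0 < Real.log (L n) := Real.log_pos (by linarith)
  have p0 : 0 ≤ (L n - baseLog (G n)) * Real.log H.index / Real.log (L n) :=
    div_nonneg (mul_nonneg (by linarith) ld) v0.le
  unfold chord
  rw [← hL] at b2 lh la ⊢
  rcases le_total (L n / (1 + ε)) (baseLog (G n)) with z | z
  · rw [div_le_iff₀ (by linarith)] at z
    have := mul_nonneg (show 0 ≤ 1 + ε by linarith) p0
    linarith
  · rw [min_eq_left z] at a6 a7
    have KL := mul_nonneg K0 (show 0 ≤ L n by linarith)
    have k0 : (0 : ℝ) < k n := by linarith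
    have kn : 0 < k n := by exact_mod_cast k0
    obtain ⟨c1, c2⟩ := ent_mem (k n) (Nat.card (Abelianization (G n))) kn (by linarith)
    have s1 : tStar (G n) (k n) ≤ t n := by
      refine max_le (time_le_of (k n) _ _ _ kn (by linarith) c1 c2 t0 (b0.trans a6)) ?_
      rw [← hL, div_le_iff₀ (by linarith)]
      exact a5
    obtain ⟨_, d2, _, d3, d4⟩ := ent_mem_sub kn (by rw [← hL]; linarith) H
    have s2 := ent_le_star (k n) H
    have s3 : starTime (G n) (k n) ≤ (1 + ε / 8) * t n := by
      simp only [Pi.sub_apply, Real.norm_eq_abs] at q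
      rw [abs_of_nonneg (tStar_nonneg (G n) (k n))] at q
      have y1 := (le_abs_self _).trans q
      have y2 := mul_le_mul_of_nonneg_left s1 (show 0 ≤ 1 + ε / 8 by linarith)
      linarith
    have et := mul_pos hε t0
    have et1 : ε * t n ≤ t n := mul_le_of_le_one_left t0.le hε1
    have et2 : ε * (ε * t n) ≤ ε * t n := mul_le_of_le_one_left et.le hε1
    have et3 := mul_pos hε et
    obtain ⟨l, hl⟩ : ∃ l, l = (1 + ε / 8) * ((1 + ε / 8) * t n) := ⟨_, rfl⟩
    have l1 : t n ≤ l := by rw [hl]; linarith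
    have l2 : l ≤ 4 * L n := by rw [hl]; linarith
    have l0 : 0 < l := by linarith
    have r := hK (k n * H.index) _ _ l l0
      (by linarith [mul_le_mul_of_nonneg_left l2 K0]) d3 d4
      (by rw [hl]; exact mul_le_mul_of_nonneg_left (s2.trans s3) (by linarith))
    have r1 : Real.log (((k n * H.index : ℕ) : ℝ) / l) ≤
        Real.log (k n / t n) + Real.log H.index := by
      push_cast
      rw [Real.log_div (by positivity) l0.ne', Real.log_mul k0.ne' (by positivity),
        Real.log_div k0.ne' t0.ne']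
      linarith [Real.log_le_log t0 l1]
    have r2 := mul_le_mul_of_nonneg_left r1 l0.le
    have r3 := mul_le_mul_of_nonneg_left (a7 _ ld)
      (show 0 ≤ (1 + ε / 8) * (1 + ε / 8) by positivity)
    have r4 : (1 + ε / 8) * (1 + ε / 8) * (1 + ε / 4) ≤ 1 + ε := by
      have y1 : ε * ε ≤ ε := mul_le_of_le_one_left hε.le hε1
      have y2 : ε * (ε * ε) ≤ ε * ε := mul_le_of_le_one_left (by positivity) hε1
      linarith
    have r5 := mul_le_mul_of_nonneg_right r4
      (show 0 ≤ baseLog (G n) + (L n - baseLog (G n)) * Real.log H.index / Real.log (L n) by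
        linarith)
    have r6 : l * (Real.log (k n / t n) + Real.log H.index) =
        (1 + ε / 8) * (1 + ε / 8) * (t n * Real.log (k n / t n) + t n * Real.log H.index) := by
      rw [hl]; ring
    linarith

/-- the classification -/
theorem classification (hG : Tendsto (fun n => Fintype.card (G n)) atTop atTop) :
    (∀ k : ℕ → ℕ,
      Tendsto (fun n => (k n : ℝ) / Real.log (Fintype.card (G n))) atTop atTop →
      Tendsto (fun n => Real.log (k n) / Real.log (Fintype.card (G n))) atTop (𝓝 0) →
      CutoffAt G k (fun n => tStar (G n) (k n))) ↔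
    ∀ ε : ℝ, 0 < ε → ∀ᶠ n in atTop, ∀ H : Subgroup (G n),
      Real.log (Nat.card (Abelianization H)) ≤ (1 + ε) * chord (G n) H.index := by
  refine ⟨fun h ε hε => ?_, fun h k h1 h2 => of_chord G h k h1 h2⟩
  filter_upwards [to_chord G hG h (min ε 1) (lt_min hε one_pos) (min_le_right _ _)] with n hn H
  have a1 := hn H
  have a2 : 0 ≤ Real.log (Nat.card (Abelianization H)) := Real.log_natCast_nonneg _
  have a3 : 0 < 1 + min ε 1 := by linarith [lt_min hε one_pos]
  have a4 : 0 ≤ chord (G n) H.index := nonneg_of_mul_nonneg_right (a2.trans a1) a3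
  exact a1.trans (mul_le_mul_of_nonneg_right (by linarith [min_le_left ε 1]) a4)

end Pool.Agent.Lib.MP_d87a8f_pr.C
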