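import Mathlib
import Pool.Agent.Lib.MP_d87a8f_pr.C.Main

/-!
Classes of groups which satisfy the chord bound, and a class which does not.
-/

namespace Pool.Agent.Lib.MP_d87a8f_pr.C

open Filter Topology Pool.Agent.Lib.MP_d87a8f_pr.Q Pool.Agent.Lib.MP_d87a8f_pr.P

theorem ab_le_core {G : Type} [Group G] [Finite G] (H : Subgroup G) :
    Nat.card (Abelianization H) ≤ Nat.card (Abelianization H.normalCore) * H.index ^ H.index := by
  have hs : Function.Surjective (Abelianization.of : H →* Abelianization H) :=
    fun x => Quotient.inductionOn' x (fun y => ⟨y, rfl⟩)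
  have : Finite (Abelianization H) := Finite.of_surjective _ hs
  have : Finite (Abelianization H.normalCore) :=
    Finite.of_surjective (Abelianization.of : H.normalCore → Abelianization H.normalCore)
      (fun x => Quotient.inductionOn' x (fun y => ⟨y, rfl⟩))
  rw [← ((H.normalCore.subgroupOf H).map Abelianization.of).card_mul_index]
  refine Nat.mul_le_mul ?_ ?_
  · let f : H.normalCore →* Abelianization H :=
      Abelianization.of.comp (Subgroup.inclusion H.normalCore_le)
    refine le_trans (Subgroup.card_le_of_le (K := (Abelianization.lift f).range) ?_)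
      (Nat.card_le_card_of_surjective _ (Abelianization.lift f).rangeRestrict_surjective)
    rintro _ ⟨x, hx, rfl⟩
    exact ⟨Abelianization.of ⟨x, hx⟩, rfl⟩
  · have h1 : H.normalCore.index ≤ H.index.factorial := by
      rw [Subgroup.normalCore_eq_ker, Subgroup.index_ker, Subgroup.index, ← Nat.card_perm]
      exact Nat.card_le_card_of_injective _ Subtype.val_injective
    have h0 : 0 < H.normalCore.index := Nat.pos_of_ne_zero Subgroup.index_ne_zero_of_finite
    refine le_trans (Nat.le_of_dvd h0 ((Subgroup.index_map_dvd _ hs).trans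
      (Subgroup.relIndex_dvd_index_of_normal _ _))) (h1.trans (Nat.factorial_le_pow _))

variable (G : ℕ → Type) [∀ n, Group (G n)] [∀ n, Fintype (G n)]

/-- a bound for the normal subgroups suffices -/
theorem chord_of_normal (hG : Tendsto (fun n => Fintype.card (G n)) atTop atTop)
    (h : ∀ ε : ℝ, 0 < ε → ∀ᶠ n in atTop, ∀ N : Subgroup (G n), N.Normal →
      Real.log (Nat.card (Abelianization N)) ≤ (1 + ε) * baseLog (G n))
    (e : ℝ) (he : 0 < e) : ∀ᶠ n in atTop, ∀ H : Subgroup (G n),
      Real.log (Nat.card (Abelianization H)) ≤ (1 + e) * chord (G n) H.index := by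
  obtain ⟨ε, hε, hε1, εe⟩ : ∃ ε : ℝ, 0 < ε ∧ ε ≤ 1 ∧ 2 * ε ≤ e :=
    ⟨min 1 (e / 2), lt_min one_pos (by linarith), min_le_left _ _,
      by linarith [min_le_right 1 (e / 2)]⟩
  have T1 : Tendsto (fun n => Real.log (Fintype.card (G n))) atTop atTop :=
    Real.tendsto_log_atTop.comp (tendsto_natCast_atTop_atTop.comp hG)
  have T2 := Real.tendsto_log_atTop.comp T1
  filter_upwards [h ε hε, T1.eventually_ge_atTop 3,
    T2.eventually_ge_atTop (-Real.log ε / (ε / 4)),
    T2.eventually (Real.isLittleO_log_id_atTop.bound (show 0 < ε / 4 by linarith))]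
    with n hn c c1 c2 H
  have lh := log_ab_sub H
  have i1 : 1 ≤ H.index := Nat.pos_of_ne_zero H.index_ne_zero_of_finite
  have d1 : (1 : ℝ) ≤ H.index := by exact_mod_cast i1
  have ld : 0 ≤ Real.log H.index := Real.log_nonneg d1
  have bL : baseLog (G n) ≤ Real.log (Fintype.card (G n)) :=
    max_le (log_ab_top _) (by linarith [floor_le_half c])
  have b0 : 0 ≤ baseLog (G n) := (Real.log_natCast_nonneg _).trans (le_max_left _ _)
  have h3 : Real.log (Nat.card (Abelianization H)) ≤
      (1 + ε) * baseLog (G n) + H.index * Real.log H.index := by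
    have y1 : (Nat.card (Abelianization H) : ℝ) ≤
        Nat.card (Abelianization H.normalCore) * (H.index : ℝ) ^ H.index := by
      exact_mod_cast ab_le_core H
    have y2 : (0 : ℝ) < Nat.card (Abelianization H) := by exact_mod_cast ab_pos_sub H
    have y3 : (0 : ℝ) < Nat.card (Abelianization H.normalCore) := by
      exact_mod_cast ab_pos_sub H.normalCore
    have y4 := Real.log_le_log y2 y1
    rw [Real.log_mul y3.ne' (by positivity), Real.log_pow] at y4
    linarith [hn H.normalCore inferInstance]
  unfold chord
  simp only [Function.comp, id, Real.norm_eq_abs] at c1 c2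
  generalize Real.log (Nat.card (Abelianization H)) = x at lh h3 ⊢
  generalize (H.index : ℝ) = d at d1 ld h3 ⊢
  generalize baseLog (G n) = a at bL b0 h3 ⊢
  generalize Real.log (Fintype.card (G n)) = L at c c1 c2 lh bL ⊢
  have v0 : 0 < Real.log L := Real.log_pos (by linarith)
  rw [abs_of_pos v0] at c2
  have c3 := (le_abs_self _).trans c2
  rw [div_le_iff₀ (by linarith)] at c1
  obtain ⟨δ, hδ⟩ : ∃ δ, δ = Real.log d / Real.log L := ⟨_, rfl⟩
  have δ0 : 0 ≤ δ := by rw [hδ]; positivity
  have e1 : Real.log d = δ * Real.log L := by rw [hδ]; field_simp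
  have e2 : (L - a) * Real.log d / Real.log L = (L - a) * δ := by rw [hδ]; ring
  rw [e2]
  have p0 : 0 ≤ (L - a) * δ := mul_nonneg (by linarith) δ0
  have p1 := mul_le_mul_of_nonneg_right (show 1 + 2 * ε ≤ 1 + e by linarith)
    (show 0 ≤ a + (L - a) * δ by linarith)
  refine le_trans ?_ p1
  have p2 := mul_nonneg hε.le (show 0 ≤ a + (L - a) * δ by linarith)
  rcases le_total 1 δ with z | z
  · have := mul_le_mul_of_nonneg_left z (show 0 ≤ L - a by linarith)
    linarith
  · have p3 : δ * L ≤ a + (L - a) * δ := by
      have := mul_nonneg b0 (show 0 ≤ 1 - δ by linarith)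
      linarith
    rcases le_total (d * Real.log L) (ε * L) with y | y
    · have y1 := mul_le_mul_of_nonneg_left y δ0
      have y2 := mul_le_mul_of_nonneg_left p3 hε.le
      have y3 := mul_nonneg hε.le p0
      rw [e1] at h3
      linarith
    · have y1 := Real.log_le_log (by positivity) y
      rw [Real.log_mul hε.ne' (by linarith), Real.log_mul (by linarith) v0.ne', e1] at y1
      have y2 : 1 - ε / 2 ≤ δ := by
        refine le_of_mul_le_mul_right ?_ v0
        linarith
      have y3 := mul_le_mul_of_nonneg_right y2 (show 0 ≤ L by linarith)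
      have y4 := mul_le_mul_of_nonneg_left (y3.trans p3) (show 0 ≤ 1 + 2 * ε by linarith)
      have y5 : ε * ε ≤ ε := mul_le_of_le_one_left hε.le hε1
      have y6 := mul_le_mul_of_nonneg_right y5 (show 0 ≤ L by linarith)
      have y7 := mul_nonneg hε.le (show 0 ≤ L by linarith)
      linarith

/-- all finite simple groups satisfy the chord bound -/
theorem chord_of_simple [∀ n, IsSimpleGroup (G n)]
    (hG : Tendsto (fun n => Fintype.card (G n)) atTop atTop) (e : ℝ) (he : 0 < e) :
    ∀ᶠ n in atTop, ∀ H : Subgroup (G n),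
      Real.log (Nat.card (Abelianization H)) ≤ (1 + e) * chord (G n) H.index := by
  refine chord_of_normal G hG (fun ε hε => Eventually.of_forall fun n N hN => ?_) e he
  have b1 : Real.log (Nat.card (Abelianization (G n))) ≤ baseLog (G n) := le_max_left _ _
  have b0 : 0 ≤ baseLog (G n) := (Real.log_natCast_nonneg _).trans b1
  have b2 := mul_nonneg hε.le b0
  rcases hN.eq_bot_or_eq_top with rfl | rfl
  · classical
    have := log_ab_le (⊥ : Subgroup (G n))
    rw [Fintype.card_unique, Nat.cast_one, Real.log_one] at this
    linarith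
  · rw [card_ab_top]
    linarith

/-- the same for groups in which every normal subgroup is perfect -/
theorem chord_of_perfect (hp : ∀ n (N : Subgroup (G n)), N.Normal → commutator N = ⊤)
    (hG : Tendsto (fun n => Fintype.card (G n)) atTop atTop) (e : ℝ) (he : 0 < e) :
    ∀ᶠ n in atTop, ∀ H : Subgroup (G n),
      Real.log (Nat.card (Abelianization H)) ≤ (1 + e) * chord (G n) H.index := by
  refine chord_of_normal G hG (fun ε hε => Eventually.of_forall fun n N hN => ?_) e he
  have b0 : 0 ≤ baseLog (G n) := (Real.log_natCast_nonneg _).trans (le_max_left _ _)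
  have b1 : Nat.card (Abelianization N) = 1 := by
    have : Nat.card (Abelianization N) = (commutator N).index := rfl
    rw [this, hp n N hN, Subgroup.index_top]
  rw [b1, Nat.cast_one, Real.log_one]
  positivity

/-- the conjectured time is the cutoff time for all finite simple groups -/
theorem simple_cutoff [∀ n, DecidableEq (G n)] [∀ n, IsSimpleGroup (G n)]
    (hG : Tendsto (fun n => Fintype.card (G n)) atTop atTop) (k : ℕ → ℕ)
    (h1 : Tendsto (fun n => (k n : ℝ) / Real.log (Fintype.card (G n))) atTop atTop)
    (h2 : Tendsto (fun n => Real.log (k n) / Real.log (Fintype.card (G n))) atTop (𝓝 0)) :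
    CutoffAt G k (fun n => tStar (G n) (k n)) :=
  of_chord G (chord_of_simple G hG) k h1 h2

end Pool.Agent.Lib.MP_d87a8f_pr.C
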