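import Mathlib
import Pool.Agent.Lib.MP_d87a8f_pr.C.Main
import Pool.Agent.Lib.MP_d87a8f_pr.P.Neg

/-!
The dihedral groups do not satisfy the chord bound.
-/

namespace Pool.Agent.Lib.MP_d87a8f_pr.C

open Filter Topology Pool.Agent.Lib.MP_d87a8f_pr.Q Pool.Agent.Lib.MP_d87a8f_pr.P

theorem dih_card : Tendsto (fun n : ℕ => Fintype.card (DihedralGroup (n + 1))) atTop atTop := by
  refine tendsto_atTop_mono (fun n => ?_) tendsto_id
  rw [DihedralGroup.card]
  simp only [id]
  omega

theorem dih_not_chord : ¬ ∀ᶠ n : ℕ in atTop, ∀ H : Subgroup (DihedralGroup (n + 1)),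
    Real.log (Nat.card (Abelianization H)) ≤ (1 + 1) * chord (DihedralGroup (n + 1)) H.index := by
  intro h
  have T1 : Tendsto (fun n : ℕ => Real.log (Fintype.card (DihedralGroup (n + 1)))) atTop atTop :=
    Real.tendsto_log_atTop.comp (tendsto_natCast_atTop_atTop.comp dih_card)
  have T2 := Real.tendsto_log_atTop.comp T1
  obtain ⟨n, hn, c, c1, c2⟩ := (h.and ((T1.eventually_ge_atTop 24).and
    ((T2.eventually_ge_atTop 8).and (T2.eventually
      (Real.isLittleO_log_id_atTop.bound (show (0 : ℝ) < 1 / 8 by norm_num)))))).exists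
  obtain ⟨H, b1, b2⟩ := exists_rot (n + 1)
  have a1 := hn H
  have l2 := Real.log_two_lt_d9
  have l3 := Real.log_two_gt_d9
  have a2 : Real.log (Fintype.card (DihedralGroup (n + 1))) =
      Real.log 2 + Real.log ((n + 1 : ℕ) : ℝ) := by
    rw [DihedralGroup.card, Nat.cast_mul, Real.log_mul (by norm_num) (by positivity)]
    norm_num
  have a3 : Real.log (Nat.card (Abelianization (DihedralGroup (n + 1)))) ≤ 3 := by
    have y1 : (Nat.card (Abelianization (DihedralGroup (n + 1))) : ℝ) ≤ 4 := by
      exact_mod_cast card_abelianization_le (n + 1)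
    have y2 : (0 : ℝ) < Nat.card (Abelianization (DihedralGroup (n + 1))) := by
      exact_mod_cast ab_pos _
    linarith [Real.log_le_sub_one_of_pos y2]
  have b0 : 0 ≤ baseLog (DihedralGroup (n + 1)) :=
    (Real.log_natCast_nonneg _).trans (le_max_left _ _)
  simp only [Function.comp, id, Real.norm_eq_abs] at c1 c2
  have a4 : baseLog (DihedralGroup (n + 1)) ≤
      Real.log (Fintype.card (DihedralGroup (n + 1))) / 8 := by
    refine max_le (by linarith) ?_
    rw [abs_of_pos (lt_of_lt_of_le (by norm_num) c1)] at c2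
    rw [div_le_iff₀ (by linarith)]
    have := mul_le_mul_of_nonneg_left ((le_abs_self _).trans c2)
      (show 0 ≤ Real.log (Fintype.card (DihedralGroup (n + 1))) by linarith)
    linarith
  unfold chord at a1
  rw [b1, b2, Nat.cast_ofNat] at a1
  generalize baseLog (DihedralGroup (n + 1)) = a at a1 b0 a4
  generalize Real.log (Fintype.card (DihedralGroup (n + 1))) = L at a1 a2 a4 c c1
  have a5 : (L - a) * Real.log 2 / Real.log L ≤ L / 8 := by
    rw [div_le_iff₀ (by linarith)]
    have y1 := mul_le_mul_of_nonneg_left (show Real.log 2 ≤ 1 by linarith)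
      (show 0 ≤ L - a by linarith)
    have y2 := mul_le_mul_of_nonneg_left c1 (show 0 ≤ L by linarith)
    linarith
  linarith

end Pool.Agent.Lib.MP_d87a8f_pr.C
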